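import Pool.Agent.Helper61.EP.StC
import Pool.Agent.Helper65.RL.LNX

/-!
# Project EP (MP_cb927e_an), module CNA
-/

set_option autoImplicit false

open MeasureTheory Set Filter Topology

namespace Pool.Agent.Helper8.EP

open Pool.Agent.Helper61.EP Pool.Agent.Helper65.RL

theorem Nn_pos {u : ℕ} {δ η m₁ : ℝ} (h : Nn u δ η m₁) : 0 < m₁ * η :=
  lt_of_lt_of_le (Real.rpow_pos_of_pos (by norm_num) _) h.2.2.1

theorem Nn_inv {u : ℕ} {δ η m₁ : ℝ} (h : Nn u δ η m₁) : 1 / (m₁ * η) ≤ X u δ := by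
  have h0 := Nn_pos h
  have h1 := h.2.2.1
  rw [X_def_neg, X_neg] at h1
  have h2 := X_pos u δ
  rw [div_le_iff₀ h0]
  rw [inv_le_iff_one_le_mul₀ h2] at h1
  linarith

theorem hCNA : StCNA := by
  intro p γ δ hγ
  obtain ⟨C, ε, hC, hε, h⟩ := fin_step (q := p) (e := δ + γ + 1) (P₀ := 70 * 10 ^ 6) 5
    (by linarith) (by norm_num)
  refine ⟨C, ε, hC, hε, fun u b η m₁ hu hN hb => h u _ ?_⟩
  have h1 := Nn_inv hN
  have hu' : (0 : ℝ) < u := by exact_mod_cast hu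
  have h2 : (2 : ℝ) ^ b ≤ X u γ := by
    rw [two_pow_b hu b]
    apply X_mono
    rw [div_le_iff₀ hu']
    exact hb
  rw [← X_one u, X_add, X_add]
  have h4 : 70 / (m₁ * η) = 70 * (1 / (m₁ * η)) := by ring
  rw [h4]
  have h0 := Nn_pos hN
  calc 70 * (1 / (m₁ * η)) * (10 ^ 6 * (u : ℝ) ^ 5 * 2 ^ b) * X u 1
      ≤ 70 * X u δ * (10 ^ 6 * (u : ℝ) ^ 5 * X u γ) * X u 1 := by
        have := X_pos u 1
        have := X_pos u γ
        have := X_pos u δ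
        gcongr
    _ = 70 * 10 ^ 6 * (u : ℝ) ^ 5 * (X u δ * X u γ * X u 1) := by ring

end Pool.Agent.Helper8.EP
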