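import Pool.Agent.Helper68.EP.St3

/-!
# Project EP, module EM3: a fat cell
-/

set_option autoImplicit false

open MeasureTheory Set Filter Topology
open scoped ENNReal RealInnerProductSpace

namespace Pool.Agent.Helper8.EP

open Pool.Agent.Helper68.LM (Pl DQ)
open Pool.Agent.Helper68.EP Pool.Agent.Helper20.RG
open Pool.Agent.Helper20.RL (RQ Rich BM Fml)

/-- the cell with index `c` -/
def Sc (W : ℤ) (c : ℤ × ℤ) : Set Pl :=
  {z | ⌊z 0 / (2 : ℝ) ^ W⌋ = c.1 ∧ ⌊z 1 / (2 : ℝ) ^ W⌋ = c.2}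

theorem mem_DQ (W : ℤ) (z z' : Pl) : z' ∈ DQ W z ↔
    ⌊z' 0 / (2 : ℝ) ^ W⌋ = ⌊z 0 / (2 : ℝ) ^ W⌋ ∧ ⌊z' 1 / (2 : ℝ) ^ W⌋ = ⌊z 1 / (2 : ℝ) ^ W⌋ := by
  constructor
  · intro h
    exact ⟨h 0, h 1⟩
  · intro h i
    fin_cases i
    · exact h.1
    · exact h.2

theorem Sc_eq (W : ℤ) (c : ℤ × ℤ) (z : Pl) (hz : z ∈ Sc W c) : Sc W c = DQ W z := by
  ext z'
  rw [mem_DQ, hz.1, hz.2]
  rfl

theorem Sc_meas (hEQ : StEQ) (W : ℤ) (c : ℤ × ℤ) (hLGR : Pool.Agent.Helper20.RL.StLGR) :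
    MeasurableSet (Sc W c) := by
  by_cases h : (Sc W c).Nonempty
  · obtain ⟨z, hz⟩ := h
    rw [Sc_eq W c z hz, (hEQ.1 W z).2.2.2]
    exact (hLGR.1 0 W W z).1
  · rw [Set.not_nonempty_iff_eq_empty.1 h]
    exact MeasurableSet.empty

theorem Sc_disj (W : ℤ) : Pairwise (fun c c' : ℤ × ℤ => Disjoint (Sc W c) (Sc W c')) := by
  intro c c' hcc
  rw [Set.disjoint_left]
  rintro z ⟨h1, h2⟩ ⟨h3, h4⟩
  exact hcc (Prod.ext (h1.symm.trans h3) (h2.symm.trans h4))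

theorem Sc_union (W : ℤ) : (⋃ c : ℤ × ℤ, Sc W c) = Set.univ := by
  ext z
  simp only [Set.mem_iUnion, Set.mem_univ, iff_true]
  exact ⟨(⌊z 0 / (2 : ℝ) ^ W⌋, ⌊z 1 / (2 : ℝ) ^ W⌋), rfl, rfl⟩

theorem floor_two (x x' : ℝ) (h : |x' - x| < 2) : |⌊x'⌋ - ⌊x⌋| ≤ 2 := by
  obtain ⟨h1, h2⟩ := abs_lt.1 h
  have e1 := Int.floor_le x
  have e2 := Int.lt_floor_add_one x
  have e3 := Int.floor_le x'
  have e4 := Int.lt_floor_add_one x'
  have a1 : (⌊x'⌋ : ℝ) - ⌊x⌋ < 3 := by linarith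
  have a2 : (-3 : ℝ) < (⌊x'⌋ : ℝ) - ⌊x⌋ := by linarith
  have b1 : ⌊x'⌋ - ⌊x⌋ < 3 := by exact_mod_cast a1
  have b2 : -3 < ⌊x'⌋ - ⌊x⌋ := by exact_mod_cast a2
  rw [abs_le]
  omega

theorem hEM3 (hPT : StPT) (hLGR : Pool.Agent.Helper20.RL.StLGR) (hEQ : StEQ) : StEM3 := by
  intro s a B W F Y' θ' μ y hs hF hBW hWa hθ hμ hY hfat hvol
  by_contra hcon
  push Not at hcon
  have h2W : (0 : ℝ) < (2 : ℝ) ^ W := by positivity
  -- the part of `F` near `Y'`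
  set F' : Set Pl := F ∩ ⋃ z ∈ Y', DQ W z with hF'
  set K : ℝ≥0∞ := ENNReal.ofReal ((2 : ℝ) ^ (B - W) / θ') with hK
  have hK0 : K ≠ 0 := by
    rw [hK]
    have : (0 : ℝ) < (2 : ℝ) ^ (B - W) / θ' := by positivity
    simpa using this
  have hKt : K ≠ ∞ := ENNReal.ofReal_ne_top
  -- the cells
  have hcell : ∀ z ∈ Y', volume (Y' ∩ DQ W z) ≤ K * volume (F' ∩ DQ W z) := by
    intro z hz
    have h1 : Y' ∩ DQ W z ⊆ RQ s W B z := by
      rintro z' ⟨hz'1, hz'2⟩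
      have e1 := (hY hz'1).2
      have e2 := (hY hz).2
      exact ⟨((mem_DQ W z z').1 hz'2).1, e1.trans e2.symm⟩
    have h2 : F' ∩ DQ W z = F ∩ DQ W z := by
      ext z'
      constructor
      · rintro ⟨h3, h4⟩
        exact ⟨h3.1, h4⟩
      · rintro ⟨h3, h4⟩
        exact ⟨⟨h3, Set.mem_biUnion hz h4⟩, h4⟩
    calc volume (Y' ∩ DQ W z) ≤ volume (RQ s W B z) := measure_mono h1
      _ = ENNReal.ofReal ((2 : ℝ) ^ (W + B)) := (hLGR.1 s W B z).2.1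
      _ = K * ENNReal.ofReal (θ' * (4 : ℝ) ^ W) := by
        rw [hK, ← ENNReal.ofReal_mul (by positivity)]
        congr 1
        have e4 : (4 : ℝ) ^ W = (2 : ℝ) ^ W * (2 : ℝ) ^ W := by
          rw [← mul_zpow]; norm_num
        have e5 : (2 : ℝ) ^ (W + B) = (2 : ℝ) ^ (B - W) * ((2 : ℝ) ^ W * (2 : ℝ) ^ W) := by
          rw [← zpow_add₀ (by norm_num : (2 : ℝ) ≠ 0), ← zpow_add₀ (by norm_num : (2 : ℝ) ≠ 0)]
          congr 1
          ring
        rw [e4, e5]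
        field_simp
      _ ≤ K * volume (F' ∩ DQ W z) := by
        rw [h2]
        exact mul_le_mul_right (hfat z hz) K
  have hcell2 : ∀ c : ℤ × ℤ, volume (Y' ∩ Sc W c) ≤ K * volume (F' ∩ Sc W c) := by
    intro c
    by_cases h : (Y' ∩ Sc W c).Nonempty
    · obtain ⟨z, hz1, hz2⟩ := h
      rw [Sc_eq W c z hz2]
      exact hcell z hz1
    · rw [Set.not_nonempty_iff_eq_empty.1 h]
      simp
  -- summation
  have hsum : volume Y' ≤ K * volume F' := by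
    calc volume Y' = volume (⋃ c : ℤ × ℤ, Y' ∩ Sc W c) := by
          rw [← Set.inter_iUnion, Sc_union, Set.inter_univ]
      _ ≤ ∑' c : ℤ × ℤ, volume (Y' ∩ Sc W c) := measure_iUnion_le _
      _ ≤ ∑' c : ℤ × ℤ, K * volume (F' ∩ Sc W c) := ENNReal.tsum_le_tsum hcell2
      _ = K * ∑' c : ℤ × ℤ, volume (F' ∩ Sc W c) := ENNReal.tsum_mul_left
      _ = K * volume F' := by
        congr 1
        have h1 : ∀ c : ℤ × ℤ, volume (F' ∩ Sc W c) = (volume.restrict F') (Sc W c) := by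
          intro c
          rw [Measure.restrict_apply (Sc_meas hEQ W c hLGR), Set.inter_comm]
        simp_rw [h1]
        rw [← measure_iUnion (Sc_disj W) (fun c => Sc_meas hEQ W c hLGR), Sc_union]
        simp
  -- five cells
  have hsub : F' ⊆ ⋃ i ∈ Finset.Icc (-2 : ℤ) 2, F ∩ RQ s a W (y + pt 0 (i * (2 : ℝ) ^ W)) := by
    rintro z' ⟨hzF, hz'⟩
    obtain ⟨z, hz, hzz⟩ := Set.mem_iUnion₂.1 hz'
    have hzRQ : z ∈ RQ s a W y := hLGR.2.2.1 s a B a W y le_rfl hBW (hY hz)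
    have hz'a : z' ∈ DQ a z := hEQ.2.2.2.1 W a z hWa hzz
    have hz'0 : z' ∈ RQ 0 W W z := by
      rw [← (hEQ.1 W z).2.2.2]
      exact hzz
    obtain ⟨d0, d1, -⟩ := hLGR.2.2.2.1 0 W W z z' (by simp) hz'0
    have d1' : |z' 1 - z 1| < (2 : ℝ) ^ W := by
      have : pr 0 z' - pr 0 z = z' 1 - z 1 := by simp [pr]
      rwa [this] at d1
    have hpr : |pr s z' - pr s z| < 2 * (2 : ℝ) ^ W := by
      have e : pr s z' - pr s z = (z' 1 - z 1) - s * (z' 0 - z 0) := by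
        simp only [pr]; ring
      rw [e]
      have e2 : |s * (z' 0 - z 0)| ≤ |z' 0 - z 0| := by
        rw [abs_mul]
        exact mul_le_of_le_one_left (abs_nonneg _) hs
      calc |(z' 1 - z 1) - s * (z' 0 - z 0)| ≤ |z' 1 - z 1| + |s * (z' 0 - z 0)| := abs_sub _ _
        _ < 2 * (2 : ℝ) ^ W := by linarith
    set i : ℤ := ⌊pr s z' / (2 : ℝ) ^ W⌋ - ⌊pr s z / (2 : ℝ) ^ W⌋ with hi
    have hi2 : |i| ≤ 2 := by
      apply floor_two
      rw [← sub_div, abs_div, abs_of_pos h2W, div_lt_iff₀ h2W]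
      exact hpr
    have hmem : i ∈ Finset.Icc (-2 : ℤ) 2 := by
      rw [Finset.mem_Icc]
      exact abs_le.1 hi2
    refine Set.mem_biUnion (by exact_mod_cast hmem) ⟨hzF, ?_, ?_⟩
    · have e0 : (y + pt 0 (i * (2 : ℝ) ^ W)) 0 = y 0 := by
        have := (hPT.1 0 (i * (2 : ℝ) ^ W)).1
        simp [this]
      rw [e0]
      exact ((mem_DQ a z z').1 hz'a).1.trans hzRQ.1
    · have e1 : pr s (y + pt 0 (i * (2 : ℝ) ^ W)) = pr s y + i * (2 : ℝ) ^ W := by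
        have h0 := (hPT.1 0 (i * (2 : ℝ) ^ W)).1
        have h1 := (hPT.1 0 (i * (2 : ℝ) ^ W)).2
        simp only [pr, PiLp.add_apply, h0, h1]
        ring
      rw [e1, add_div, mul_div_assoc, div_self h2W.ne', mul_one, Int.floor_add_intCast,
        ← hzRQ.2, hi]
      ring
  have hfin : volume F' < ENNReal.ofReal (θ' * μ * (2 : ℝ) ^ (a + W)) := by
    calc volume F' ≤ volume (⋃ i ∈ Finset.Icc (-2 : ℤ) 2,
          F ∩ RQ s a W (y + pt 0 (i * (2 : ℝ) ^ W))) := measure_mono hsub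
      _ ≤ ∑ i ∈ Finset.Icc (-2 : ℤ) 2, volume (F ∩ RQ s a W (y + pt 0 (i * (2 : ℝ) ^ W))) :=
        measure_biUnion_finset_le _ _
      _ < ∑ _i ∈ Finset.Icc (-2 : ℤ) 2, ENNReal.ofReal (θ' * μ / 5 * (2 : ℝ) ^ (a + W)) := by
        refine ENNReal.sum_lt_sum_of_nonempty ⟨0, by simp⟩ ?_
        intro i hi
        have h1 := hcon i (abs_le.2 (Finset.mem_Icc.1 hi))
        unfold Rich at h1
        exact lt_of_not_ge h1
      _ = ENNReal.ofReal (θ' * μ * (2 : ℝ) ^ (a + W)) := by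
        rw [Finset.sum_const]
        have hc : (Finset.Icc (-2 : ℤ) 2).card = 5 := by decide
        rw [hc, ← ENNReal.ofReal_nsmul]
        congr 1
        rw [nsmul_eq_mul]
        push_cast
        ring
  have hlt : volume Y' < ENNReal.ofReal (μ * (2 : ℝ) ^ (a + B)) := by
    calc volume Y' ≤ K * volume F' := hsum
      _ < K * ENNReal.ofReal (θ' * μ * (2 : ℝ) ^ (a + W)) :=
        ENNReal.mul_lt_mul_right hK0 hKt hfin
      _ = ENNReal.ofReal (μ * (2 : ℝ) ^ (a + B)) := by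
        rw [hK, ← ENNReal.ofReal_mul (by positivity)]
        congr 1
        have e5 : (2 : ℝ) ^ (a + B) = (2 : ℝ) ^ (B - W) * (2 : ℝ) ^ (a + W) := by
          rw [← zpow_add₀ (by norm_num : (2 : ℝ) ≠ 0)]
          congr 1
          ring
        rw [e5]
        field_simp
  exact absurd hvol (not_le.2 hlt)

end Pool.Agent.Helper8.EP
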