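import Pool.Agent.Helper15.EP.St

set_option autoImplicit false

/-!
# Project EP, module UAV (helper8)
-/

open Polynomial Pool.Agent.Helper15.FC Pool.Agent.Helper15.EP

namespace Pool.Agent.Helper8.EP

noncomputable section

private theorem mem_Lc {F : Type} [Field F] [Fintype F] {r x : F[X]} :
    x ∈ Lc r ↔ x.degree < (r.natDegree : WithBot ℕ) ∧ IsCoprime x r := by
  classical
  unfold Lc
  rw [Finset.mem_filter, mem_Lw]

/-- a residue class prime to `e` contains elements prime to `m` -/
private theorem exists_lift {F : Type} [Field F] (x e : F[X]) (hxe : IsCoprime x e) (m : F[X])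
    (hm : m ≠ 0) : ∃ t : F[X], IsCoprime (x + e * t) m := by
  classical
  revert hm
  induction m using UniqueFactorizationMonoid.induction_on_prime with
  | h₁ => intro h; exact absurd rfl h
  | h₂ u hu => intro _; exact ⟨0, (isCoprime_one_right (x := x + e * 0)).of_isCoprime_of_dvd_right (isUnit_iff_dvd_one.1 hu)⟩
  | h₃ a p ha hp ih =>
    intro _
    obtain ⟨t, ht⟩ := ih ha
    by_cases hpx : p ∣ x + e * t
    · have hpa : ¬ p ∣ a := by
        intro hpa
        exact hp.not_isUnit (ht.isUnit_of_dvd' hpx hpa)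
      have hpe : ¬ p ∣ e := by
        intro hpe
        have h1 : p ∣ x := by
          have := dvd_sub hpx (hpe.mul_right t)
          simpa using this
        exact hp.not_isUnit (hxe.isUnit_of_dvd' h1 hpe)
      refine ⟨t + a, ?_⟩
      have e1 : x + e * (t + a) = (x + e * t) + e * a := by ring
      rw [e1]
      refine IsCoprime.mul_right ?_ ?_
      · rw [isCoprime_comm]
        refine (hp.irreducible.coprime_iff_not_dvd).2 ?_
        intro h
        have h2 : p ∣ e * a := by
          have := dvd_sub h hpx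
          simpa using this
        rcases hp.dvd_or_dvd h2 with h3 | h3
        · exact hpe h3
        · exact hpa h3
      · exact ht.add_mul_right_left e
    · refine ⟨t, IsCoprime.mul_right ?_ ht⟩
      rw [isCoprime_comm]
      exact (hp.irreducible.coprime_iff_not_dvd).2 hpx

theorem hUAV (hRAM : StRAM) : StUAV := by
  classical
  intro F _ _ m e h ν hm he hν
  have hm0 : m ≠ 0 := hm.ne_zero
  obtain ⟨hem, hedvd⟩ := (mem_Dv hm0).1 he
  have hνe : ∀ g : F[X], ν (e * g) = 1 := by
    have h1 : ν ∈ ACf e := (Finset.mem_filter.1 hν).1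
    unfold ACf at h1
    split_ifs at h1 with h2
    · exact (h2.mem_toFinset.1 h1)
    · exact absurd h1 (Finset.notMem_empty _)
  have hred : ∀ u : F[X], ν (u * h) = ν ((u %ₘ e) * h) := by
    intro u
    have h1 : u * h = (u %ₘ e) * h + e * ((u /ₘ e) * h) := by
      conv_lhs => rw [← modByMonic_add_div u e]
      ring
    rw [h1, AddChar.map_add_eq_mul, hνe, mul_one]
  have hcop_mod : ∀ (u r : F[X]), r.Monic → IsCoprime u r → u %ₘ r ∈ Lc r := by
    intro u r hr hu
    rw [mem_Lc]
    refine ⟨?_, ?_⟩
    · have := degree_modByMonic_lt u hr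
      rwa [degree_eq_natDegree hr.ne_zero] at this
    · have h1 : u = (u %ₘ r) + r * (u /ₘ r) := (modByMonic_add_div u r).symm
      rw [h1] at hu
      exact (IsCoprime.of_add_mul_left_left hu)
  have hmaps : ∀ u ∈ Lc m, u %ₘ e ∈ Lc e := by
    intro u hu
    exact hcop_mod u e hem ((mem_Lc.1 hu).2.of_isCoprime_of_dvd_right hedvd)
  have hself : ∀ (r y : F[X]), r.Monic → y ∈ Lc r → y %ₘ r = y := by
    intro r y hr hy
    rw [modByMonic_eq_self_iff hr]
    have := (mem_Lc.1 hy).1
    rwa [degree_eq_natDegree hr.ne_zero]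
  -- comparison of the fibres
  have hkey : ∀ x ∈ Lc e, ∀ y ∈ Lc e,
      ((Lc m).filter (fun u => u %ₘ e = x)).card ≤ ((Lc m).filter (fun u => u %ₘ e = y)).card := by
    intro x hx y hy
    obtain ⟨a, b, hab⟩ := (mem_Lc.1 hx).2
    have hae : IsCoprime a e := ⟨x, b, by rw [← hab]; ring⟩
    have hw0 : IsCoprime (a * y) e := IsCoprime.mul_left hae (mem_Lc.1 hy).2
    obtain ⟨t, ht⟩ := exists_lift (a * y) e hw0 m hm0
    set w : F[X] := a * y + e * t with hw
    refine Finset.card_le_card_of_injOn (fun u => (u * w) %ₘ m) ?_ ?_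
    · intro u hu
      have hu' := Finset.mem_filter.1 (Finset.mem_coe.1 hu)
      have h1 : (u * w) %ₘ m ∈ Lc m :=
        hcop_mod (u * w) m hm (IsCoprime.mul_left (mem_Lc.1 hu'.1).2 ht)
      refine Finset.mem_coe.2 (Finset.mem_filter.2 ⟨h1, ?_⟩)
      change ((u * w) %ₘ m) %ₘ e = y
      rw [← hself e y hem hy]
      refine modByMonic_eq_of_dvd_sub hem ?_
      have h2 : u * w %ₘ m = u * w - m * (u * w /ₘ m) := by
        rw [eq_sub_iff_add_eq]
        exact modByMonic_add_div (u * w) m
      have h3 : u = x + e * (u /ₘ e) := by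
        conv_lhs => rw [← modByMonic_add_div u e]
        rw [hu'.2]
      have h4 : u * w - y = e * (x * t + (u /ₘ e) * w - b * y) := by
        have h5 : u * w - y = (x + e * (u /ₘ e)) * w - (a * x + b * e) * y := by
          rw [hab, one_mul, ← h3]
        rw [h5]
        have h6 : x * w = x * (a * y + e * t) := by rw [hw]
        linear_combination h6
      rw [h2]
      have h7 : u * w - m * (u * w /ₘ m) - y = (u * w - y) - m * (u * w /ₘ m) := by ring
      rw [h7, h4]
      exact dvd_sub (dvd_mul_right _ _) (hedvd.mul_right _)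
    · intro u hu v hv huv
      have hu' := Finset.mem_filter.1 (Finset.mem_coe.1 hu)
      have hv' := Finset.mem_filter.1 (Finset.mem_coe.1 hv)
      have h1 : (u * w) %ₘ m = (v * w) %ₘ m := huv
      have h2 : m ∣ u * w - v * w := by
        have e1 := modByMonic_add_div (u * w) m
        have e2 := modByMonic_add_div (v * w) m
        refine ⟨u * w /ₘ m - v * w /ₘ m, ?_⟩
        rw [h1] at e1
        linear_combination e2 - e1
      have h3 : m ∣ u - v := by
        have h4 : m ∣ (u - v) * w := by
          have : u * w - v * w = (u - v) * w := by ring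
          rwa [this] at h2
        exact ht.symm.dvd_of_dvd_mul_right h4
      have h5 : u %ₘ m = v %ₘ m := modByMonic_eq_of_dvd_sub hm h3
      rwa [hself m u hm hu'.1, hself m v hm hv'.1] at h5
  have hx0 : (1 : F[X]) %ₘ e ∈ Lc e := hcop_mod 1 e hem isCoprime_one_left
  set N : ℕ := ((Lc m).filter (fun u => u %ₘ e = (1 : F[X]) %ₘ e)).card with hN
  have hNx : ∀ x ∈ Lc e, ((Lc m).filter (fun u => u %ₘ e = x)).card = N := by
    intro x hx
    exact le_antisymm (hkey x hx _ hx0) (hkey _ hx0 x hx)
  have hphi : phi m = phi e * N := by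
    rw [← card_Lc, ← card_Lc]
    rw [Finset.card_eq_sum_card_fiberwise (f := fun u => u %ₘ e) (t := Lc e) hmaps]
    rw [Finset.sum_congr rfl hNx, Finset.sum_const, smul_eq_mul]
  have hsum : ∑ u ∈ Lc m, ν (u * h) = (N : ℂ) * (cram e h : ℂ) := by
    rw [← hRAM F e h ν hem hν, Finset.mul_sum]
    rw [← Finset.sum_fiberwise_of_maps_to (g := fun u => u %ₘ e) (t := Lc e) hmaps]
    refine Finset.sum_congr rfl ?_
    intro x hx
    rw [← hNx x hx]
    rw [Finset.sum_congr rfl (g := fun _ => ν (x * h))]
    · rw [Finset.sum_const, nsmul_eq_mul]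
    · intro u hu
      rw [hred u, (Finset.mem_filter.1 hu).2]
  rw [hsum, hphi]
  push_cast
  ring

end

end Pool.Agent.Helper8.EP
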